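import Pool.Agent.helper82.LEQ.Spec

/-! Row lq:XT. -/

namespace LEQ

open QS (Lef EAb)

open Classical in
theorem XT_sum {α : Type} [PartialOrder α] [Finite α] (P : α → Prop) :
    ∑ s ∈ (FS (fun s : Finset α => IsChain (· ≤ ·) (s : Set α) ∧ ∀ x ∈ s, P x)).erase ∅,
      (-1 : ℤ) ^ (s.card + 1) =
    ∑ z ∈ (FS P).sigma (fun x => FS (fun s : Finset α => IsChain (· ≤ ·) (s : Set α) ∧
      ∀ y ∈ s, P y ∧ y < x)), -(-1 : ℤ) ^ (z.2.card + 1) := by
  symm
  refine Finset.sum_bij (fun z _ => insert z.1 z.2) ?_ ?_ ?_ ?_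
  · rintro ⟨x, s⟩ hz
    rw [Finset.mem_sigma, mem_FS, mem_FS] at hz
    obtain ⟨hx, hs, hy⟩ := hz
    rw [Finset.mem_erase, mem_FS]
    refine ⟨(Finset.insert_nonempty _ _).ne_empty, ?_, ?_⟩
    · rw [Finset.coe_insert]
      exact hs.insert (fun b hb _ => Or.inr (hy b hb).2.le)
    · intro y hy'
      rcases Finset.mem_insert.mp hy' with rfl | h
      · exact hx
      · exact (hy y h).1
  · rintro ⟨x, s⟩ hz ⟨x', s'⟩ hz' heq
    rw [Finset.mem_sigma, mem_FS, mem_FS] at hz hz'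
    obtain ⟨hx, hs, hy⟩ := hz
    obtain ⟨hx', hs', hy'⟩ := hz'
    simp only at heq hx hx' hs hs' hy hy'
    have e1 : x = x' := by
      have h1 : x ∈ insert x' s' := by rw [← heq]; exact Finset.mem_insert_self _ _
      have h2 : x' ∈ insert x s := by rw [heq]; exact Finset.mem_insert_self _ _
      rcases Finset.mem_insert.mp h1 with h1 | h1
      · exact h1
      · rcases Finset.mem_insert.mp h2 with h2 | h2
        · exact h2.symm
        · exact absurd ((hy' x h1).2.trans (hy x' h2).2) (lt_irrefl _)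
    subst e1
    have n1 : x ∉ s := fun h => lt_irrefl _ (hy x h).2
    have n2 : x ∉ s' := fun h => lt_irrefl _ (hy' x h).2
    have e2 : s = s' := by rw [← Finset.erase_insert n1, heq, Finset.erase_insert n2]
    rw [e2]
  · intro s hs
    rw [Finset.mem_erase, mem_FS] at hs
    obtain ⟨hne, hch, hP⟩ := hs
    obtain ⟨m, hm⟩ := s.exists_maximal (Finset.nonempty_iff_ne_empty.mpr hne)
    have hle : ∀ y ∈ s, y ≤ m := by
      intro y hy
      rcases hch.total (Finset.mem_coe.mpr hy) (Finset.mem_coe.mpr hm.1) with h | h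
      · exact h
      · exact hm.2 hy h
    refine ⟨⟨m, s.erase m⟩, ?_, ?_⟩
    · rw [Finset.mem_sigma, mem_FS, mem_FS]
      refine ⟨hP m hm.1, hch.mono (by rw [Finset.coe_erase]; exact Set.sdiff_subset), ?_⟩
      intro y hy
      have h1 := Finset.mem_erase.mp hy
      exact ⟨hP y h1.2, lt_of_le_of_ne (hle y h1.2) h1.1⟩
    · exact Finset.insert_erase hm.1
  · rintro ⟨x, s⟩ hz
    rw [Finset.mem_sigma, mem_FS, mem_FS] at hz
    obtain ⟨hx, hs, hy⟩ := hz
    have n1 : x ∉ s := fun h => lt_irrefl _ (hy x h).2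
    simp only
    rw [Finset.card_insert_of_notMem n1, pow_succ (-1 : ℤ) (s.card + 1)]
    ring

theorem XT : XT_stmt := by
  classical
  intro α _ _ P
  have h0 : (∅ : Finset α) ∈ FS (fun s : Finset α => IsChain (· ≤ ·) (s : Set α) ∧ ∀ x ∈ s, P x) := by
    rw [mem_FS]
    refine ⟨?_, fun x hx => absurd hx (Finset.notMem_empty x)⟩
    rw [Finset.coe_empty]
    exact Set.pairwise_empty _
  have h1 := XT_sum P
  have h2 : XS P = (-1 : ℤ) ^ ((∅ : Finset α).card + 1) +
      ∑ s ∈ (FS (fun s : Finset α => IsChain (· ≤ ·) (s : Set α) ∧ ∀ x ∈ s, P x)).erase ∅,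
      (-1 : ℤ) ^ (s.card + 1) := by
    unfold XS
    exact (Finset.add_sum_erase _ (fun s : Finset α => (-1 : ℤ) ^ (s.card + 1)) h0).symm
  rw [h2, h1, Finset.card_empty, zero_add, pow_one, Finset.sum_sigma]
  unfold XS
  simp only [Finset.sum_neg_distrib]
  ring

end LEQ
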